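import Pool.Agent.H11.PF.RfD
import Pool.Agent.H36.LF.GqF
import Pool.Agent.H92.SR.AzFinal

/-!
# Module Qmu (MP_187c26_nt, polynomial form): polynomial Lehmer bound over `ℚ(μ_n)`, `p ∤ n`

`Ω` algebraically closed, algebraic over `ℚ`. Put `d = dgQ n α ≥ 1`, `F = adjoin ℚ {x : Ω | x ^ n = 1}`. `IsGalois ℚ Ω` (`IsAlgClosure ℚ Ω`, `IsAlgClosure.isGalois`).
Let `c₁` be the constant of `Pool.Agent.H36.LF.thmL_adjoin2 p _ 0 le_rfl`, `c₂` that of `az_final ℚ Ω p hp 1`. `c = min c₁ c₂`.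
(1) Suppose no `α^k` (`k ≥ 1`) is a power `p^j`, `j ∈ ℤ`. Apply `thmL_adjoin2` with `m = 1`, `x = (p : Ω)`, `s = 0`, `ξ` a primitive `n`-th root of unity of `Ω`, `α`, `d`: `n` is prime to `1 * p`; `finrank ℚ ℚ⟮(p : Ω)⟯ = 1`
(`p` is in the bottom field); `idxZ (p : Ω) = 1` (definition in `Pool/Agent/H69/BD`: the relative index of `ℤ[p] = ℤ` in the integers of `ℚ(p) = ℚ`; or use `idxZ_hom` with `ℚ → Ω`; `log 1 = 0`); `primeFactors 1 = ∅`; the field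
`adjoin ℚ {ξ, (p : Ω)}` is `F` (every `x` with `x^n = 1` is a power of `ξ`), and `natDegree (minpoly F α) ≤ dgQ n α` by `natDegree_le_dg`. So `c₁ ≤ (d + 0)^400 h(α)`.
(2) Suppose `α^k = p^j`, `k ≥ 1`; `j ≠ 0` is not needed. Let `V = Orb F α` (finite, `#V = d`), `δ = ∏_{x ∈ V} x` = ± the constant coefficient of `∏ (X - C x)`, which lies in `F` (`orb_poly_mem`). Every `x ∈ V` has `x^k = α^k` (`ρ` fixes `p^j`), so
`δ^k = α^(k d)`, so `h(δ) = d h(α)` (`k h(δ) = h(δ^k) = k d h(α)`, `Pool.Agent.H4.RR.absLogHeight_pow`). `δ` is not `0` and not a root of unity (otherwise `α` is one). `dg F δ = 1` (`≤ 1`), so `c₂ ≤ h(δ) = d h(α) ≤ d^400 h(α)`.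
-/

set_option autoImplicit false
set_option linter.unusedSectionVars false

open NumberField IntermediateField

namespace Pool.Agent.H11.PF

open Pool.Agent.H72.RM Pool.Agent.H72.PB Pool.Agent.H92.SR

private theorem deg_natCast {Ω : Type} [Field Ω] [CharZero Ω] (p : ℕ) :
    Module.finrank ℚ ℚ⟮(p : Ω)⟯ = 1 := by
  rw [IntermediateField.finrank_adjoin_simple_eq_one_iff]
  exact _root_.natCast_mem _ p

private theorem idx_natCast {Ω : Type} [Field Ω] [CharZero Ω] (p : ℕ) :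
    Pool.Agent.H69.BD.idxZ (p : Ω) = 1 := by
  unfold Pool.Agent.H69.BD.idxZ
  rw [AddSubgroup.relIndex_eq_one]
  rintro y ⟨hy1, hy2⟩
  have h1 : y ∈ ℚ⟮(p : Ω)⟯ := hy1
  have h2 : IsIntegral ℤ y := hy2
  have h3 : ℚ⟮(p : Ω)⟯ = ⊥ := by
    rw [IntermediateField.adjoin_simple_eq_bot_iff]
    exact _root_.natCast_mem _ p
  rw [h3, IntermediateField.mem_bot] at h1
  obtain ⟨q, rfl⟩ := h1
  have h4 : IsIntegral ℤ q := (isIntegral_algebraMap_iff (algebraMap ℚ Ω).injective).1 h2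
  obtain ⟨k, rfl⟩ := IsIntegrallyClosed.isIntegral_iff.1 h4
  have h5 : algebraMap ℚ Ω (algebraMap ℤ ℚ k) = (k : Ω) := by simp
  rw [h5]
  exact intCast_mem (Algebra.adjoin ℤ ({(p : Ω)} : Set Ω)).toSubring k

private theorem minpoly_congr {Ω : Type} [Field Ω] [CharZero Ω] (α : Ω)
    (K K' : IntermediateField ℚ Ω) (h : K = K') :
    (minpoly K α).natDegree = (minpoly K' α).natDegree := by
  subst h
  rfl

private theorem fld_eq {Ω : Type} [Field Ω] [CharZero Ω] (n p : ℕ) (hn : 1 ≤ n) (ξ : Ω)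
    (hξ : IsPrimitiveRoot ξ n) :
    IntermediateField.adjoin ℚ ({ξ, (p : Ω)} : Set Ω) =
      IntermediateField.adjoin ℚ {x : Ω | x ^ n = 1} := by
  apply le_antisymm
  · rw [IntermediateField.adjoin_le_iff]
    rintro y (rfl | rfl)
    · exact IntermediateField.subset_adjoin ℚ _ hξ.pow_eq_one
    · exact _root_.natCast_mem _ p
  · rw [IntermediateField.adjoin_le_iff]
    intro y hy
    have hn0 : NeZero n := ⟨by omega⟩
    obtain ⟨i, -, rfl⟩ := hξ.eq_pow_of_pow_eq_one (show y ^ n = 1 from hy)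
    have h1 : ξ ∈ IntermediateField.adjoin ℚ ({ξ, (p : Ω)} : Set Ω) :=
      IntermediateField.subset_adjoin ℚ _ (Set.mem_insert _ _)
    exact pow_mem h1 i

/-- an element with a power in `p^ℤ` -/
private theorem rad_case {Ω : Type} [Field Ω] [CharZero Ω] [IsGalois ℚ Ω]
    (p : ℕ) (F : IntermediateField ℚ Ω) (α : Ω)
    (hα : α ≠ 0) (htor : ∀ k : ℕ, 1 ≤ k → α ^ k ≠ 1) (k : ℕ) (hk : 1 ≤ k) (j : ℤ)
    (h : α ^ k = (p : Ω) ^ j) :
    ∃ δ : Ω, δ ≠ 0 ∧ (∀ l : ℕ, 1 ≤ l → δ ^ l ≠ 1) ∧ dg F δ ≤ 1 ∧ δ ^ k = α ^ (k * dg F α) := by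
  classical
  have hfin := orb_finite F α
  obtain ⟨V, hV⟩ : ∃ V : Finset Ω, (V : Set Ω) = Orb F α := ⟨hfin.toFinset, hfin.coe_toFinset⟩
  have hd : dg F α = V.card := by
    unfold dg
    rw [← hV, Set.ncard_coe_finset]
  have hd0 : 0 < dg F α := dg_pos F α
  have hx : ∀ x ∈ V, x ^ k = α ^ k := by
    intro x hx
    have h1 : x ∈ Orb F α := by rw [← hV]; exact hx
    obtain ⟨ρ, -, rfl⟩ := h1
    rw [← map_pow, h, map_zpow₀, map_natCast]
  obtain ⟨δ, hδ⟩ : ∃ δ : Ω, δ = ∏ x ∈ V, x := ⟨_, rfl⟩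
  have hδk : δ ^ k = α ^ (k * dg F α) := by
    rw [hδ, ← Finset.prod_pow, Finset.prod_congr rfl hx, Finset.prod_const, hd, ← pow_mul]
  have hδF : δ ∈ F := by
    have h1 := orb_poly_mem V hV 0
    rw [Polynomial.coeff_zero_eq_eval_zero, Polynomial.eval_prod] at h1
    simp only [Polynomial.eval_sub, Polynomial.eval_X, Polynomial.eval_C, zero_sub] at h1
    rw [Finset.prod_neg] at h1
    have h2 : δ = (-1) ^ V.card * ((-1) ^ V.card * ∏ x ∈ V, x) := by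
      rw [← mul_assoc, ← mul_pow, neg_one_mul, neg_neg, one_pow, one_mul, hδ]
    rw [h2]
    exact mul_mem (pow_mem (neg_mem (one_mem _)) _) h1
  refine ⟨δ, ?_, ?_, ?_, hδk⟩
  · rintro rfl
    rw [zero_pow (by omega)] at hδk
    exact pow_ne_zero _ hα hδk.symm
  · intro l hl h1
    refine htor (k * dg F α * l) ?_ ?_
    · exact Nat.mul_pos (Nat.mul_pos hk hd0) hl
    · rw [pow_mul, ← hδk, ← pow_mul, mul_comm, pow_mul, h1, one_pow]
  · have h1 : Orb F δ ⊆ {δ} := by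
      rintro x ⟨ρ, hρ, rfl⟩
      exact hρ δ hδF
    unfold dg
    exact (Set.ncard_le_ncard h1 (Set.finite_singleton _)).trans (Set.ncard_singleton _).le

theorem qmu (Ω : Type) [Field Ω] [CharZero Ω] [IsAlgClosed Ω] (hint : ∀ x : Ω, IsIntegral ℚ x)
    (p : ℕ) (hp : p.Prime) :
    ∃ c : ℝ, 0 < c ∧ ∀ n : ℕ, 1 ≤ n → ¬ p ∣ n → ∀ α : Ω, α ≠ 0 → (∀ k : ℕ, 1 ≤ k → α ^ k ≠ 1) →
      c ≤ (dgQ n α : ℝ) ^ 400 * absLogHeight₁ α := by
  classical
  have hAlg : Algebra.IsAlgebraic ℚ Ω := ⟨fun x => (hint x).isAlgebraic⟩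
  have hCl : IsAlgClosure ℚ Ω := ⟨inferInstance, hAlg⟩
  have hG : IsGalois ℚ Ω := inferInstance
  obtain ⟨c₁, hc₁, H₁⟩ := Pool.Agent.H36.LF.thmL_adjoin2 p hp.two_le 0 le_rfl
  obtain ⟨c₂, hc₂, H₂⟩ := az_final ℚ Ω p hp 1
  refine ⟨min c₁ c₂, lt_min hc₁ hc₂, ?_⟩
  intro n hn hpn α hα htor
  have hd0 : 0 < dgQ n α := dg_pos _ α
  have hh := ht_nonneg α
  by_cases hrad : ∀ k : ℕ, 1 ≤ k → ∀ j : ℤ, α ^ k ≠ (p : Ω) ^ j
  · refine (min_le_left _ _).trans ?_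
    have hn0 : NeZero n := ⟨by omega⟩
    obtain ⟨ξ, hξ⟩ := HasEnoughRootsOfUnity.exists_primitiveRoot Ω n
    have hcop : n.Coprime (1 * p) := by
      rw [one_mul]
      exact ((Nat.Prime.coprime_iff_not_dvd hp).2 hpn).symm
    have h1 := H₁ Ω 1 n (dgQ n α) 0 ξ (p : Ω) α le_rfl hn hcop hξ.pow_eq_one (pow_one _)
      (deg_natCast p) (by rw [idx_natCast, Nat.cast_one, Real.log_one, zero_mul])
      (by simp) (hint α)
      (by
        rw [minpoly_congr α _ _ (fld_eq n p hn ξ hξ)]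
        exact natDegree_le_dg _ α) hα hrad
    rw [add_zero] at h1
    exact h1
  · push Not at hrad
    obtain ⟨k, hk, j, hkj⟩ := hrad
    refine (min_le_right _ _).trans ?_
    obtain ⟨δ, h1, h2, h3, h4⟩ := rad_case p
      (IntermediateField.adjoin ℚ {x : Ω | x ^ n = 1}) α hα htor k hk j hkj
    have h5 := H₂ n hn hpn δ h1 h2 h3
    have h6 := congrArg absLogHeight₁ h4
    rw [Pool.Agent.H4.RR.absLogHeight_pow Ω δ (hint δ) k,
      Pool.Agent.H4.RR.absLogHeight_pow Ω α (hint α) _] at h6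
    have hk0 : (0 : ℝ) < k := by exact_mod_cast hk
    have h7 : absLogHeight₁ δ = (dgQ n α : ℝ) * absLogHeight₁ α := by
      apply mul_left_cancel₀ hk0.ne'
      rw [h6]
      unfold dgQ
      push_cast
      ring
    rw [h7] at h5
    refine h5.trans (mul_le_mul_of_nonneg_right ?_ hh)
    have h8 : (1 : ℝ) ≤ dgQ n α := by exact_mod_cast hd0
    exact le_self_pow₀ h8 (by norm_num)

end Pool.Agent.H11.PF
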