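import Pool.Agent.H92.SR.DgTower
import Pool.Agent.H72.PB.OrbB
import Pool.Agent.H72.RM.RFa

/-!
# Module RfD (MP_187c26_nt, polynomial form): the degree over `ℚ(μ_n)` is polynomial in the degree over `RF Ω b n R`

`dgQ n y` = number of conjugates of `y` over `ℚ(μ_n)` (`dg` with ground field `ℚ`).
(1) Over `K`: `L = adjoin K {x | x^n = 1}`. Choose `z : Option (Fin r) → Ω`: `z none` a primitive `R`-th root of unity (`R ≥ 1`, `Ω` algebraically closed of characteristic 0,
`HasEnoughRootsOfUnity` or `IsSepClosed.exists_primitiveRoot..`), `z (some i) ^ R = b i`. All have `dg L ≤ R` (`dg_le_of_poly` with `X^R - C a`, `natDegree = R`).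
`dg_tower L z R`: `dg L y ≤ R^(r+1) * dg (L ⊔ adjoin K (range z)) y`, and `RF Ω b n R ≤ L ⊔ adjoin K (range z)`: an `x` with `x^R = 1` is a power of `z none`, an `x` with
`x^R = b i` is `z (some i)` times such an element (`b i ≠ 0`). `dg_mono` (`dg` is antitone: `L₁ ≤ L₂` gives `dg L₂ y ≤ dg L₁ y`).
(2) From `ℚ` to `K`: `F = adjoin ℚ {x | x^n = 1}`. `K = ℚ(θ)` (`Field.exists_primitive_element ℚ K`), `θ' = algebraMap K Ω θ`. `one_gen`-type bound: `dg_tower (K := ℚ) F (fun _ : Unit => θ') k y` with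
`k = finrank ℚ K` (`dg F θ' ≤ k` by `dg_le_of_poly` with the minimal polynomial of `θ` over `ℚ`): `dg F y ≤ k * dg (F ⊔ ℚ(θ')) y`. And `Orb (F ⊔ ℚ(θ')) y ⊆ Orb L y`: `ρ : Ω ≃ₐ[ℚ] Ω` which fixes
`F ⊔ ℚ(θ')` fixes `algebraMap K Ω` pointwise, so it is a `K`-automorphism fixing the roots of unity of order `n`, hence it fixes `L` (`adjoin_induction`). Instances: `IsGalois ℚ Ω`: `Ω` is algebraic over `ℚ`
(`Algebra.IsAlgebraic.trans ℚ K Ω`, `IsScalarTower ℚ K Ω`), `IsAlgClosure ℚ Ω`, `IsAlgClosure.isGalois`; `Subsingleton (Algebra ℚ Ω)`.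
-/

set_option autoImplicit false
set_option linter.unusedSectionVars false

open NumberField IntermediateField

namespace Pool.Agent.H11.PF

open Pool.Agent.H72.RM Pool.Agent.H72.PB Pool.Agent.H92.SR

/-- the number of conjugates of `y` over `ℚ(μ_n)` -/
noncomputable def dgQ {Ω : Type} [Field Ω] [CharZero Ω] (n : ℕ) (y : Ω) : ℕ :=
  dg (K := ℚ) (IntermediateField.adjoin ℚ {x : Ω | x ^ n = 1}) y

variable {K Ω : Type} [Field K] [NumberField K] [Field Ω] [CharZero Ω] [IsAlgClosed Ω]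
  [Algebra K Ω] [IsGalois K Ω] {r : ℕ}

private theorem deg_pow (L : IntermediateField K Ω) (a : K) (R : ℕ) (hR : 1 ≤ R) (x : Ω)
    (hx : x ^ R = algebraMap K Ω a) : dg L x ≤ R := by
  classical
  have h := dg_le_of_poly (L := L) (y := x)
    (Polynomial.X ^ R - Polynomial.C (algebraMap K Ω a))
    (Polynomial.X_pow_sub_C_ne_zero (by omega) _) ?_ ?_
  · rwa [Polynomial.natDegree_X_pow_sub_C] at h
  · intro i
    rw [Polynomial.coeff_sub, Polynomial.coeff_X_pow, Polynomial.coeff_C]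
    refine sub_mem ?_ ?_
    · split_ifs
      exacts [one_mem _, zero_mem _]
    · split_ifs
      exacts [L.algebraMap_mem a, zero_mem _]
  · rw [Polynomial.eval_sub, Polynomial.eval_pow, Polynomial.eval_X, Polynomial.eval_C, hx,
      sub_self]

private theorem part1 (b : Fin r → K) (hb : ∀ i, b i ≠ 0) (n R : ℕ) (hR : 1 ≤ R) (y : Ω) :
    dg (IntermediateField.adjoin K {x : Ω | x ^ n = 1}) y ≤ R ^ (r + 1) * dg (RF Ω b n R) y := by
  classical
  have : NeZero R := ⟨by omega⟩
  obtain ⟨ζ, hζ⟩ : ∃ ζ : Ω, IsPrimitiveRoot ζ R := HasEnoughRootsOfUnity.exists_primitiveRoot Ω R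
  have hz : ∀ i : Fin r, ∃ z : Ω, z ^ R = algebraMap K Ω (b i) :=
    fun i => IsAlgClosed.exists_pow_nat_eq _ (by omega)
  choose w hw using hz
  set L := IntermediateField.adjoin K {x : Ω | x ^ n = 1} with hL
  have hdeg : ∀ o : Option (Fin r), dg L (o.elim ζ w) ≤ R := by
    intro o
    cases o with
    | none => exact deg_pow L 1 R hR ζ (by rw [map_one, hζ.pow_eq_one])
    | some i => exact deg_pow L (b i) R hR (w i) (hw i)
  have h1 := dg_tower L (fun o : Option (Fin r) => o.elim ζ w) R hdeg y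
  rw [Fintype.card_option, Fintype.card_fin] at h1
  refine h1.trans (Nat.mul_le_mul_left _ (dg_mono ?_ y))
  set M := L ⊔ IntermediateField.adjoin K (Set.range fun o : Option (Fin r) => o.elim ζ w)
    with hM
  have hζM : ζ ∈ M := (le_sup_right : _ ≤ M) (IntermediateField.subset_adjoin K _ ⟨none, rfl⟩)
  have hwM : ∀ i, w i ∈ M := fun i =>
    (le_sup_right : _ ≤ M) (IntermediateField.subset_adjoin K _ ⟨some i, rfl⟩)
  have hone : ∀ x : Ω, x ^ R = 1 → x ∈ M := by
    intro x hx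
    obtain ⟨i, -, hi⟩ := hζ.eq_pow_of_pow_eq_one hx
    rw [← hi]
    exact pow_mem hζM i
  unfold RF
  rw [IntermediateField.adjoin_le_iff]
  rintro x (hx | hx | ⟨i, hx⟩)
  · exact (le_sup_left : L ≤ M) (IntermediateField.subset_adjoin K _ hx)
  · exact hone x hx
  · have hb0 : algebraMap K Ω (b i) ≠ 0 := by
      rw [Ne, map_eq_zero]
      exact hb i
    have hw0 : w i ≠ 0 := by
      intro h0
      have h2 := hw i
      rw [h0, zero_pow (by omega)] at h2
      exact hb0 h2.symm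
    have h2 : x / w i ∈ M := hone _ (by rw [div_pow, hx, hw i, div_self hb0])
    have h3 : x = x / w i * w i := (div_mul_cancel₀ x hw0).symm
    rw [h3]
    exact mul_mem h2 (hwM i)

private theorem part2 (n : ℕ) (y : Ω) : dgQ n y ≤ Module.finrank ℚ K *
    dg (IntermediateField.adjoin K {x : Ω | x ^ n = 1}) y := by
  classical
  have hsub : Subsingleton (Algebra ℚ Ω) := inferInstance
  have : IsScalarTower ℚ K Ω := IsScalarTower.of_algebraMap_eq fun q => by
    rw [eq_ratCast, eq_ratCast, map_ratCast]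
  have : Algebra.IsAlgebraic ℚ K := inferInstance
  have : Algebra.IsAlgebraic ℚ Ω := Algebra.IsAlgebraic.trans ℚ K Ω
  have : IsAlgClosure ℚ Ω := ⟨inferInstance, inferInstance⟩
  have : IsGalois ℚ Ω := IsAlgClosure.isGalois ℚ Ω
  obtain ⟨θ, hθ⟩ := Field.exists_primitive_element ℚ K
  set θ' : Ω := algebraMap K Ω θ with hθ'
  set F := IntermediateField.adjoin ℚ {x : Ω | x ^ n = 1} with hF
  have hint : IsIntegral ℚ θ := Algebra.IsIntegral.isIntegral θ
  have hdθ : dg F θ' ≤ Module.finrank ℚ K := by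
    have h := dg_le_of_poly (L := F) (y := θ') ((minpoly ℚ θ).map (algebraMap ℚ Ω))
      ((Polynomial.map_ne_zero_iff (algebraMap ℚ Ω).injective).2 (minpoly.ne_zero hint)) ?_ ?_
    · rw [Polynomial.natDegree_map] at h
      exact h.trans (minpoly.natDegree_le θ)
    · intro i
      rw [Polynomial.coeff_map]
      exact F.algebraMap_mem _
    · rw [Polynomial.eval_map_algebraMap, hθ', Polynomial.aeval_algebraMap_apply, minpoly.aeval,
        map_zero]
  have h1 := dg_tower (K := ℚ) F (fun _ : Unit => θ') (Module.finrank ℚ K) (fun _ => hdθ) y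
  rw [Fintype.card_unit, pow_one] at h1
  refine h1.trans (Nat.mul_le_mul_left _ ?_)
  refine Set.ncard_le_ncard ?_ (orb_finite _ y)
  rintro x ⟨ρ, hρ, rfl⟩
  have hρθ : ρ θ' = θ' := hρ θ' ((le_sup_right : _ ≤ F ⊔ IntermediateField.adjoin ℚ _)
    (IntermediateField.subset_adjoin ℚ _ ⟨(), rfl⟩))
  have hρK : ∀ a : K, ρ (algebraMap K Ω a) = algebraMap K Ω a := by
    have h2 : ρ.toAlgHom.comp (IsScalarTower.toAlgHom ℚ K Ω) = IsScalarTower.toAlgHom ℚ K Ω := by
      refine AlgHom.ext_of_adjoin_eq_top (s := {θ}) ?_ ?_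
      · rw [← IntermediateField.adjoin_simple_toSubalgebra_of_isAlgebraic hint.isAlgebraic, hθ,
          IntermediateField.top_toSubalgebra]
      · rintro _ rfl
        exact hρθ
    intro a
    exact DFunLike.congr_fun h2 a
  refine ⟨{ ρ with commutes' := hρK }, ?_, rfl⟩
  intro z hz
  induction hz using IntermediateField.adjoin_induction with
  | mem x hx => exact hρ x ((le_sup_left : F ≤ _) (IntermediateField.subset_adjoin ℚ _ hx))
  | algebraMap x => exact hρK x
  | add x y hx hy h1 h2 => rw [map_add, h1, h2]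
  | inv x hx h1 => rw [map_inv₀, h1]
  | mul x y hx hy h1 h2 => rw [map_mul, h1, h2]

theorem rf_deg (b : Fin r → K) (hb : ∀ i, b i ≠ 0) (n R : ℕ) (hn : 1 ≤ n) (hR : 1 ≤ R) (y : Ω) :
    dgQ n y ≤ Module.finrank ℚ K * (R ^ (r + 1) * dg (RF Ω b n R) y) :=
  (part2 n y).trans (Nat.mul_le_mul_left _ (part1 b hb n R hR y))

end Pool.Agent.H11.PF
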