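import Pool.Agent.H11.PF.Dir
import Pool.Agent.H11.PF.RfD
import Pool.Agent.H11.PF.Qmu
import Pool.Agent.H92.SR.STower3
import Pool.Agent.H92.SR.Cov
import Pool.Agent.H92.SR.BDeg

/-!
# Module BDeg (MP_187c26_nt, polynomial form): polynomial lower bound for the height over `NS`

`K` a number field, `b i ∈ K` with the independence property, `S` a finite nonempty set of primes, `NS = K(μ_∞, S-radicals of the b i)`:
`c ≤ (dg (NS Ω b S) w)^C h(w)` for all `w ∉ DivG Ω b`.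
-/

set_option autoImplicit false
set_option linter.unusedSectionVars false

open NumberField IntermediateField

namespace Pool.Agent.H11.PF

open Pool.Agent.H72.RM Pool.Agent.H72.PB Pool.Agent.H92.SR

variable {K Ω : Type} [Field K] [NumberField K] [Field Ω] [CharZero Ω] [IsAlgClosed Ω]
  [Algebra K Ω] [IsGalois K Ω] {r : ℕ}

/-- a power of the logarithm is at most linear -/
theorem log_pow_le (A : ℕ) (hA : 1 ≤ A) (y : ℝ) (hy : 1 ≤ y) :
    (Real.log y) ^ A ≤ (A : ℝ) ^ A * y := by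
  have hA0 : (0 : ℝ) < A := by exact_mod_cast hA
  have hy0 : 0 < y := by linarith
  obtain ⟨z, hz⟩ : ∃ z : ℝ, z = Real.exp (Real.log y / A) := ⟨_, rfl⟩
  have hz0 : 0 < z := by
    rw [hz]
    exact Real.exp_pos _
  have hzA : z ^ A = y := by
    rw [hz, ← Real.exp_nat_mul, mul_div_cancel₀ _ hA0.ne', Real.exp_log hy0]
  have h1 : Real.log y ≤ A * z := by
    have h2 := Real.add_one_le_exp (Real.log y / A)
    rw [← hz] at h2
    have h3 : Real.log y / A ≤ z := by linarith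
    rw [div_le_iff₀ hA0] at h3
    linarith
  have h0 : 0 ≤ Real.log y := Real.log_nonneg hy
  calc (Real.log y) ^ A ≤ (A * z) ^ A := pow_le_pow_left₀ h0 h1 A
    _ = (A : ℝ) ^ A * y := by rw [mul_pow, hzA]

variable (Ω) in
theorem b_pol (b : Fin r → K) (hb : ∀ i, b i ≠ 0)
    (hind : ∀ N : ℕ, 1 ≤ N → ∀ (m : Fin r → ℤ) (y : K), y ^ N = ∏ i, (b i) ^ (m i) →
      ∀ i, (N : ℤ) ∣ m i) (S : Finset ℕ) (hS : ∀ p ∈ S, p.Prime) (hne : S.Nonempty) :
    ∃ (c : ℝ) (C : ℕ), 0 < c ∧ ∀ w : Ω, w ≠ 0 → w ∉ DivG Ω b →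
      c ≤ (dg (NS Ω b S) w : ℝ) ^ C * absLogHeight₁ w := by
  classical
  obtain ⟨A, hA, H⟩ := Pool.Agent.H72.PB.s_tower3 (K := K) (Ω := Ω) (b := b) S (fun p hp => by
    haveI : Fact p.Prime := ⟨hS p hp⟩
    obtain ⟨ι, h₀, J, D⟩ := sx_of (Ω := Ω) p b hb hind
    exact ⟨⟨hS p hp⟩, ι, h₀, J, D⟩)
  obtain ⟨p, hp⟩ := hne
  obtain ⟨c₂', hc₂', h2'⟩ := qmu Ω (int_all K) p (hS p hp)
  obtain ⟨c₂, hc₂, hc₂1, h2⟩ : ∃ c₂ : ℝ, 0 < c₂ ∧ c₂ ≤ 1 ∧ ∀ n : ℕ, 1 ≤ n → ¬ p ∣ n →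
      ∀ α : Ω, α ≠ 0 → (∀ k : ℕ, 1 ≤ k → α ^ k ≠ 1) →
      c₂ ≤ (dgQ n α : ℝ) ^ 400 * absLogHeight₁ α :=
    ⟨min 1 c₂', lt_min one_pos hc₂', min_le_left _ _, fun n hn hpn α h0 h1 =>
      (min_le_right _ _).trans (h2' n hn hpn α h0 h1)⟩
  obtain ⟨c₃, e, hc₃, h3⟩ := dir_pol Ω b hb
  have hA1 : (1 : ℝ) ≤ A := by exact_mod_cast hA
  have hA0 : (0 : ℝ) < A := by linarith
  obtain ⟨C₁, hC₁⟩ : ∃ C₁ : ℝ, C₁ = (A : ℝ) ^ A * ((A : ℝ) ^ A * 3) := ⟨_, rfl⟩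
  have hC₁1 : 1 ≤ C₁ := by
    have h4 : (1 : ℝ) ≤ (A : ℝ) ^ A := one_le_pow₀ hA1
    rw [hC₁]
    nlinarith
  obtain ⟨k, hk⟩ : ∃ k : ℝ, k = (Module.finrank ℚ K : ℝ) := ⟨_, rfl⟩
  have hk1 : 1 ≤ k := by
    rw [hk]
    have h4 : 0 < Module.finrank ℚ K := Module.finrank_pos
    exact_mod_cast h4
  obtain ⟨M, hM⟩ : ∃ M : ℝ, M = (k * C₁ ^ (r + 1)) ^ 400 := ⟨_, rfl⟩
  have hM1 : 1 ≤ M := by
    rw [hM]
    refine one_le_pow₀ ?_
    have h4 : (1 : ℝ) ≤ C₁ ^ (r + 1) := one_le_pow₀ hC₁1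
    nlinarith
  refine ⟨min (1 / C₁) (c₃ * (c₂ / M) ^ e), (r + 2) * 400 * e + 2, lt_min (by positivity) (by positivity),
    ?_⟩
  intro w hw0 hwD
  obtain ⟨D, hD⟩ : ∃ D : ℕ, D = dg (NS Ω b S) w := ⟨_, rfl⟩
  rw [← hD]
  have hD1 : 1 ≤ D := by
    rw [hD]
    exact dg_pos _ _
  have hDr : (1 : ℝ) ≤ D := by exact_mod_cast hD1
  have hD0 : (0 : ℝ) < D := by linarith
  obtain ⟨R, hR, hRle, H⟩ := H D hD1
  obtain ⟨B, hB⟩ : ∃ B : ℝ, B = ((A : ℝ) * Real.log (3 * D)) ^ A := ⟨_, rfl⟩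
  rw [← hB] at H hRle
  have hlog : 0 < Real.log (3 * D) := Real.log_pos (by linarith)
  have hB0 : 0 < B := by
    rw [hB]
    positivity
  have hBle : B ≤ C₁ * D := by
    rw [hB, mul_pow, hC₁]
    have h4 := log_pow_le A hA (3 * D) (by linarith)
    calc (A : ℝ) ^ A * Real.log (3 * D) ^ A ≤ (A : ℝ) ^ A * ((A : ℝ) ^ A * (3 * D)) :=
          mul_le_mul_of_nonneg_left h4 (by positivity)
      _ = (A : ℝ) ^ A * ((A : ℝ) ^ A * 3) * D := by ring
  have hR1 : (1 : ℝ) ≤ R := by exact_mod_cast hR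
  have hRC : (R : ℝ) ≤ C₁ * D := hRle.trans hBle
  have hh0 : 0 ≤ absLogHeight₁ w := ht_nonneg _
  obtain ⟨n, N, hn, hN, hnS, hNS, hcov⟩ := cov b hb S hS w
  rw [← hD] at hcov
  have hpow1 : (D : ℝ) ^ 2 ≤ (D : ℝ) ^ ((r + 2) * 400 * e + 2) :=
    pow_le_pow_right₀ hDr (by omega)
  rcases lt_or_ge (absLogHeight₁ w) (1 / (B * D)) with hh | hh
  · refine (min_le_right _ _).trans ?_
    have hone : (1 : Ω) ∈ GammaS Ω b (S : Set ℕ) :=
      gam_of_pow 1 le_rfl (fun q hq hq1 => absurd (Nat.dvd_one.1 hq1) hq.one_lt.ne') 0 (by simp)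
    have hht : B * ((dg (RF Ω b n (N * 1)) w : ℝ) * absLogHeight₁ (1 * w)) ≤ 1 := by
      rw [mul_one, one_mul]
      have h4 : (dg (RF Ω b n N) w : ℝ) ≤ D := by exact_mod_cast hcov
      calc B * ((dg (RF Ω b n N) w : ℝ) * absLogHeight₁ w)
          ≤ B * ((D : ℝ) * (1 / (B * D))) := by
            refine mul_le_mul_of_nonneg_left ?_ hB0.le
            exact mul_le_mul h4 hh.le hh0 (by positivity)
        _ = 1 := by
            field_simp
    obtain ⟨E, hE, γ', hγ', y', hy', heq, hEd⟩ := H n 1 hn le_rfl hnS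
      (fun q hq h => (hS q hq).one_lt.ne' (Nat.dvd_one.1 h)) N hN hNS 1 w hone hw0
      (by rw [mul_one]; exact hcov) hht
    rw [one_mul] at heq
    rw [mul_one, mul_one] at hEd
    have hd1 : 1 ≤ dg (RF Ω b n R) y' := dg_pos _ _
    have hEd' : E * dg (RF Ω b n R) y' ≤ D := hEd.trans hcov
    have hE' : E ≤ D := (Nat.le_mul_of_pos_right _ hd1).trans hEd'
    have hd' : dg (RF Ω b n R) y' ≤ D := (Nat.le_mul_of_pos_left _ hE).trans hEd'
    have hnot : γ' * y' ∉ DivG Ω b := by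
      rw [← heq]
      rintro ⟨k, hk, m, hm⟩
      exact hwD ⟨E * k, Nat.mul_pos hE hk, m, by rw [pow_mul]; exact hm⟩
    have hcl : ∀ y, dg (RF Ω b n R) y ≤ D → ∀ n' : ℕ, 1 ≤ n' → ∀ l : Fin r → ℤ,
        dg (RF Ω b n R) ((∏ i, (algebraMap K Ω (b i)) ^ (l i)) * y ^ n') ≤ D := by
      intro y hy n' _ l
      have hmem : (∏ i, (algebraMap K Ω (b i)) ^ (l i)) ∈ RF Ω b n R := by
        refine prod_mem fun i _ => ?_
        exact zpow_mem ((RF Ω b n R).algebraMap_mem (b i)) (l i)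
      have hne0 : (∏ i, (algebraMap K Ω (b i)) ^ (l i)) ≠ 0 := by
        refine Finset.prod_ne_zero_iff.mpr fun i _ => ?_
        refine zpow_ne_zero _ ?_
        rw [Ne, map_eq_zero]
        exact hb i
      rw [dg_smul hmem hne0]
      exact le_trans (Pool.Agent.H92.SR.dg_pow_le _ _ _) hy
    obtain ⟨κ, hκ⟩ : ∃ κ : ℝ, κ = c₂ / M / (D : ℝ) ^ ((r + 2) * 400) := ⟨_, rfl⟩
    have hκ0 : 0 < κ := by
      rw [hκ]
      positivity
    have hκ1 : κ ≤ 1 := by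
      rw [hκ, div_le_one (by positivity), div_le_iff₀ (by positivity)]
      have h4 : (1 : ℝ) ≤ (D : ℝ) ^ ((r + 2) * 400) := one_le_pow₀ hDr
      nlinarith
    have hk : ∀ x, dg (RF Ω b n R) x ≤ D → x ≠ 0 → x ∉ DivG Ω b → κ ≤ absLogHeight₁ x := by
      intro x hx hx0 hxD
      have h4 := h2 n hn (hnS p hp) x hx0 (by
        intro k hk hk1
        exact hxD ⟨k, hk, 0, by rw [hk1]; simp⟩)
      have h5 := rf_deg b hb n R hn hR x
      have h6 : (dgQ n x : ℝ) ≤ k * ((C₁ * D) ^ (r + 1) * D) := by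
        calc (dgQ n x : ℝ) ≤ ((Module.finrank ℚ K * (R ^ (r + 1) * dg (RF Ω b n R) x) : ℕ) : ℝ) := by
              exact_mod_cast h5
          _ = k * ((R : ℝ) ^ (r + 1) * (dg (RF Ω b n R) x : ℝ)) := by
              push_cast
              rw [hk]
          _ ≤ k * ((C₁ * D) ^ (r + 1) * D) := by
              have h7 : (dg (RF Ω b n R) x : ℝ) ≤ D := by exact_mod_cast hx
              have h8 : (R : ℝ) ^ (r + 1) ≤ (C₁ * D) ^ (r + 1) :=
                pow_le_pow_left₀ (by positivity) hRC _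
              refine mul_le_mul_of_nonneg_left ?_ (by linarith)
              exact mul_le_mul h8 h7 (by positivity) (by positivity)
      have h9 : (dgQ n x : ℝ) ^ 400 ≤ M * (D : ℝ) ^ ((r + 2) * 400) := by
        calc (dgQ n x : ℝ) ^ 400 ≤ (k * ((C₁ * D) ^ (r + 1) * D)) ^ 400 :=
              pow_le_pow_left₀ (Nat.cast_nonneg _) h6 _
          _ = M * (D : ℝ) ^ ((r + 2) * 400) := by
              rw [hM, pow_mul, ← mul_pow]
              congr 1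
              rw [mul_pow, pow_succ (D : ℝ) (r + 1)]
              ring
      have hx0' : 0 ≤ absLogHeight₁ x := ht_nonneg _
      rw [hκ, div_div, div_le_iff₀ (by positivity)]
      calc c₂ ≤ (dgQ n x : ℝ) ^ 400 * absLogHeight₁ x := h4
        _ ≤ (M * (D : ℝ) ^ ((r + 2) * 400)) * absLogHeight₁ x :=
            mul_le_mul_of_nonneg_right h9 hx0'
        _ = absLogHeight₁ x * (M * (D : ℝ) ^ ((r + 2) * 400)) := mul_comm _ _
    have h4 := h3 κ hκ0 hκ1 (fun x => dg (RF Ω b n R) x ≤ D) hcl hk γ' y' (gam_div hγ') hd' hy' hnot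
    rw [← heq, Pool.Agent.H4.RR.absLogHeight_pow Ω _ (int_all K _)] at h4
    have h5 : (E : ℝ) * absLogHeight₁ w ≤ (D : ℝ) * absLogHeight₁ w := by
      refine mul_le_mul_of_nonneg_right ?_ hh0
      exact_mod_cast hE'
    have h6 : c₃ * κ ^ e ≤ (D : ℝ) * absLogHeight₁ w := h4.trans h5
    have h7 : κ ^ e * (D : ℝ) ^ ((r + 2) * 400 * e) = (c₂ / M) ^ e := by
      rw [hκ, div_pow, pow_mul _ ((r + 2) * 400) e]
      field_simp
    calc c₃ * (c₂ / M) ^ e = c₃ * κ ^ e * (D : ℝ) ^ ((r + 2) * 400 * e) := by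
          rw [← h7]
          ring
      _ ≤ (D : ℝ) * absLogHeight₁ w * (D : ℝ) ^ ((r + 2) * 400 * e) :=
          mul_le_mul_of_nonneg_right h6 (by positivity)
      _ = (D : ℝ) ^ ((r + 2) * 400 * e + 1) * absLogHeight₁ w := by
          rw [pow_succ]
          ring
      _ ≤ (D : ℝ) ^ ((r + 2) * 400 * e + 2) * absLogHeight₁ w :=
          mul_le_mul_of_nonneg_right (pow_le_pow_right₀ hDr (by omega)) hh0
  · refine (min_le_left _ _).trans ?_
    rw [div_le_iff₀ (by positivity)] at hh ⊢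
    have h4 : B * D ≤ C₁ * (D : ℝ) ^ 2 := by
      calc B * D ≤ C₁ * D * D := mul_le_mul_of_nonneg_right hBle hD0.le
        _ = C₁ * (D : ℝ) ^ 2 := by ring
    calc (1 : ℝ) ≤ absLogHeight₁ w * (B * D) := hh
      _ ≤ absLogHeight₁ w * (C₁ * (D : ℝ) ^ 2) := mul_le_mul_of_nonneg_left h4 hh0
      _ ≤ absLogHeight₁ w * (C₁ * (D : ℝ) ^ ((r + 2) * 400 * e + 2)) := by
          refine mul_le_mul_of_nonneg_left ?_ hh0
          exact mul_le_mul_of_nonneg_left hpow1 (by linarith)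
      _ = (D : ℝ) ^ ((r + 2) * 400 * e + 2) * absLogHeight₁ w * C₁ := by ring

end Pool.Agent.H11.PF
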