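import Pool.Agent.H92.SR.DirGen

/-!
# Module Dir (MP_187c26_nt, polynomial form): the Dirichlet trick with a polynomial constant

`dirP`: exactly the induction of `dirich` in `Pool/Agent/H72/RM/Dirich.lean`, with explicit bounds: `r = 0`: `B = 1`, `e = 0`, `C = 1`. Step: `B₂ = ⌈1/ε⌉₊`, `1/ε ≤ B₂ ≤ 1/ε + 1 ≤ 2/ε`;
`B₁` for `ε/B₂ ≥ ε²/2` (and `ε/B₂ ≤ 1`): `B₁ ≤ C (2/ε²)^e`; `B = B₁ B₂ ≤ C (2/ε²)^e (2/ε) = C 2^(e+1) (1/ε)^(2e+1)`. So `C' = C 2^(e+1)`, `e' = 2e+1`.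
`dir_pol`: exactly the proof of `dir_gen` in `Pool/Agent/H92/SR/DirGen.lean` (copy its private lemmas), with `dirP r` in place of `dirich`, for `ε = κ/(2(H+1)) ≤ 1`:
the constant there is `κ/(2B)`, and `B ≤ C (2(H+1)/κ)^e`, so `κ/(2B) ≥ κ^(e+1) / (2 C (2(H+1))^e)`: `c = 1/(2 C (2(H+1))^e)`, exponent `e + 1`.
-/

set_option autoImplicit false
set_option linter.unusedSectionVars false

open NumberField IntermediateField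

namespace Pool.Agent.H11.PF

open Pool.Agent.H72.RM Pool.Agent.H72.PB

theorem dirP (r : ℕ) : ∃ (e : ℕ) (C : ℝ), 1 ≤ C ∧ ∀ ε : ℝ, 0 < ε → ε ≤ 1 → ∃ B : ℕ, 1 ≤ B ∧
    (B : ℝ) ≤ C * (1 / ε) ^ e ∧ ∀ x : Fin r → ℝ,
    ∃ n : ℕ, 1 ≤ n ∧ n ≤ B ∧ ∃ l : Fin r → ℤ, ∀ i, |(n : ℝ) * x i - l i| ≤ ε := by
  sorry

variable {K Ω : Type} [Field K] [NumberField K] [Field Ω] [CharZero Ω] [IsAlgClosed Ω]
  [Algebra K Ω] [IsGalois K Ω] {r : ℕ}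

variable (Ω) in
theorem dir_pol (b : Fin r → K) (hb : ∀ i, b i ≠ 0) :
    ∃ (c : ℝ) (e : ℕ), 0 < c ∧ ∀ κ : ℝ, 0 < κ → κ ≤ 1 → ∀ P : Ω → Prop,
      (∀ y, P y → ∀ n : ℕ, 1 ≤ n → ∀ l : Fin r → ℤ,
        P ((∏ i, (algebraMap K Ω (b i)) ^ (l i)) * y ^ n)) →
      (∀ x, P x → x ≠ 0 → x ∉ DivG Ω b → κ ≤ absLogHeight₁ x) →
      ∀ γ y : Ω, γ ∈ DivG Ω b → P y → y ≠ 0 → γ * y ∉ DivG Ω b →
        c * κ ^ e ≤ absLogHeight₁ (γ * y) := by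
  sorry

end Pool.Agent.H11.PF
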