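import Pool.Agent.H11.PF.BDeg
import Pool.Agent.H11.TH.Defs
import Pool.Agent.H72.RM.Sat
import Pool.Agent.H72.RM.Basis
import Pool.Agent.H72.RG.IndAll

/-!
# Module FinS (MP_187c26_nt, polynomial form): polynomial Lehmer bound over `N₀ = K(μ_∞, S-radicals of Λ)`

`lehmer_pol`: `Λ` finitely generated, `S` a finite set of primes: there are `c > 0`, `C` with `c ≤ (dg (N₀ K Λ S) γ)^C h(γ)` for all `γ` having no power in `Λ`.
-/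

set_option autoImplicit false
set_option linter.unusedSectionVars false

open NumberField IntermediateField

namespace Pool.Agent.H11.PF

open Pool.Agent.H72.RM Pool.Agent.H72.RG Pool.Agent.H72.PB Pool.Agent.H92.SR

variable {K Ω : Type} [Field K] [NumberField K] [Field Ω] [CharZero Ω] [IsAlgClosed Ω]
  [Algebra K Ω] [IsGalois K Ω]

private theorem fo_prod {r : ℕ} (b : Fin r → Kˣ) (m : Fin r → ℤ) :
    algebraMap K Ω (((∏ i, b i ^ (m i) : Kˣ)) : K) =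
      ∏ i, (algebraMap K Ω ((b i : Kˣ) : K)) ^ (m i) := by
  rw [Units.coe_prod, map_prod]
  refine Finset.prod_congr rfl fun i _ => ?_
  rw [Units.val_zpow_eq_zpow_val, map_zpow₀]

/-- an element of `Λ` is a root of unity times a product of powers of the `b i` -/
private theorem fo_dec {r : ℕ} (Λ Λ' : Subgroup Kˣ)
    (hΛ' : ∀ x : Kˣ, x ∈ Λ' ↔ ∃ N : ℕ, 1 ≤ N ∧ x ^ N ∈ Λ) (b : Fin r → Kˣ)
    (hgen : ∀ x ∈ Λ', ∃ m : Fin r → ℤ, IsOfFinOrder (x * (∏ i, b i ^ (m i))⁻¹))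
    {u : Kˣ} (hu : u ∈ Λ) :
    ∃ (m : Fin r → ℤ) (w : Ω) (k : ℕ), 1 ≤ k ∧ w ^ k = 1 ∧
      algebraMap K Ω ((u : Kˣ) : K) = w * ∏ i, (algebraMap K Ω ((b i : Kˣ) : K)) ^ (m i) := by
  have hu' : u ∈ Λ' := (hΛ' u).2 ⟨1, le_rfl, by rwa [pow_one]⟩
  obtain ⟨m, hm⟩ := hgen u hu'
  obtain ⟨k, hk, hk1⟩ := isOfFinOrder_iff_pow_eq_one.1 hm
  obtain ⟨v, hv⟩ : ∃ v, v = u * (∏ i, b i ^ (m i))⁻¹ := ⟨_, rfl⟩
  rw [← hv] at hk1
  have huv : u = v * ∏ i, b i ^ (m i) := by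
    rw [hv, inv_mul_cancel_right]
  refine ⟨m, algebraMap K Ω ((v : Kˣ) : K), k, hk, ?_, ?_⟩
  · rw [← map_pow, ← Units.val_pow_eq_pow_val, hk1, Units.val_one, map_one]
  · rw [← fo_prod, ← map_mul, ← Units.val_mul, ← huv]

private theorem fo_gs {r : ℕ} (Λ Λ' : Subgroup Kˣ)
    (hΛ' : ∀ x : Kˣ, x ∈ Λ' ↔ ∃ N : ℕ, 1 ≤ N ∧ x ^ N ∈ Λ) (b : Fin r → Kˣ)
    (hgen : ∀ x ∈ Λ', ∃ m : Fin r → ℤ, IsOfFinOrder (x * (∏ i, b i ^ (m i))⁻¹))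
    (S : Finset ℕ) (T : Set Ω)
    (hT : T = {x : Ω | ∃ u ∈ Λ, x = algebraMap K Ω ((u : Kˣ) : K)}) :
    SG T S ⊆ GammaS Ω (fun i => ((b i : Kˣ) : K)) (S : Set ℕ) := by
  rintro x ⟨N, hN, hNS, t, ⟨n, hn, htn⟩, hx⟩
  rw [hT] at hx
  obtain ⟨u, hu, hxu⟩ := hx
  obtain ⟨m, w, k, hk, hw, huw⟩ := fo_dec (Ω := Ω) Λ Λ' hΛ' b hgen hu
  have hw0 : w ≠ 0 := by
    rintro rfl
    rw [zero_pow (by omega)] at hw
    exact zero_ne_one hw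
  refine ⟨N, hN, hNS, t * w⁻¹, ⟨n * k, Nat.mul_pos hn hk, ?_⟩, m, ?_⟩
  · rw [mul_pow, pow_mul, htn, one_pow, one_mul, inv_pow, mul_comm n k, pow_mul, hw, one_pow,
      inv_one]
  · rw [← mul_assoc, hxu, huw, mul_comm w, mul_inv_cancel_right₀ hw0]

private theorem fo_div {r : ℕ} (Λ Λ' : Subgroup Kˣ)
    (hΛ' : ∀ x : Kˣ, x ∈ Λ' ↔ ∃ N : ℕ, 1 ≤ N ∧ x ^ N ∈ Λ) (b : Fin r → Kˣ)
    (hb : ∀ i, b i ∈ Λ')
    (T : Set Ω) (hT : T = {x : Ω | ∃ u ∈ Λ, x = algebraMap K Ω ((u : Kˣ) : K)}) :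
    DivG Ω (fun i => ((b i : Kˣ) : K)) ⊆ DG T := by
  rintro x ⟨N, hN, m, hx⟩
  have h1 : ∏ i, b i ^ (m i) ∈ Λ' := Subgroup.prod_mem _ fun i _ => Subgroup.zpow_mem _ (hb i) _
  obtain ⟨M, hM, hM1⟩ := (hΛ' _).1 h1
  refine ⟨N * M, Nat.mul_pos hN hM, ?_⟩
  rw [hT]
  refine ⟨_, hM1, ?_⟩
  rw [pow_mul, hx, Units.val_pow_eq_pow_val, map_pow, fo_prod]

variable (Ω) in
theorem lehmer_O (Λ : Subgroup Kˣ) (hΛ : Λ.FG) (S : Finset ℕ) (hS : ∀ p ∈ S, p.Prime)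
    (hne : S.Nonempty) (T : Set Ω)
    (hT : T = {x : Ω | ∃ u ∈ Λ, x = algebraMap K Ω ((u : Kˣ) : K)}) :
    ∃ (c : ℝ) (C : ℕ), 0 < c ∧ ∀ w : Ω, w ≠ 0 → w ∉ DG T →
      c ≤ (dg (IntermediateField.adjoin K (SG T S)) w : ℝ) ^ C * absLogHeight₁ w := by
  obtain ⟨Λ', hΛ'fg, hΛ'⟩ := sat_fg K Λ hΛ
  obtain ⟨r, b, hb, hgen, hind⟩ := sat_basis Λ' hΛ'fg
  have hb0 : ∀ i, (fun i => ((b i : Kˣ) : K)) i ≠ 0 := fun i => (b i).ne_zero
  obtain ⟨c, C, hc, hmain⟩ := b_pol Ω (fun i => ((b i : Kˣ) : K)) hb0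
    (fun N hN m y hy i => ind_all Λ Λ' hΛ' b hb hgen hind N hN m y hy i) S hS hne
  have hSG : IntermediateField.adjoin K (SG T S) ≤ NS Ω (fun i => ((b i : Kˣ) : K)) S :=
    IntermediateField.adjoin.mono K _ _ (fo_gs Λ Λ' hΛ' b hgen S T hT)
  refine ⟨c, C, hc, fun w hw hnd => ?_⟩
  have h1 := hmain w hw (fun h => hnd (fo_div Λ Λ' hΛ' b hb T hT h))
  have h2 : (dg (NS Ω (fun i => ((b i : Kˣ) : K)) S) w : ℝ) ≤
      dg (IntermediateField.adjoin K (SG T S)) w := by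
    exact_mod_cast dg_mono hSG w
  exact h1.trans (mul_le_mul_of_nonneg_right (pow_le_pow_left₀ (Nat.cast_nonneg _) h2 _)
    (ht_nonneg _))

variable (K) in
theorem lehmer_pol (Λ : Subgroup Ωˣ) (hΛ : Λ.FG) (S : Finset ℕ) (hS : ∀ p ∈ S, p.Prime) :
    ∃ (c : ℝ) (C : ℕ), 0 < c ∧ ∀ γ : Ωˣ, (∀ m : ℕ, 1 ≤ m → γ ^ m ∉ Λ) →
      c ≤ (dg (Pool.Agent.H11.TH.N₀ K Λ S) (γ : Ω) : ℝ) ^ C * absLogHeight₁ (γ : Ω) := by
  classical
  obtain ⟨T₁, hT₁⟩ := id hΛ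
  -- the field generated by `Λ`
  let K₀ : IntermediateField K Ω :=
    IntermediateField.adjoin K ((fun x : Ωˣ => (x : Ω)) '' (T₁ : Set Ωˣ))
  have hfin : FiniteDimensional K K₀ := by
    have : Finite ((fun x : Ωˣ => (x : Ω)) '' (T₁ : Set Ωˣ)) := by
      have h1 : ((fun x : Ωˣ => (x : Ω)) '' (T₁ : Set Ωˣ)).Finite :=
        (Finset.finite_toSet T₁).image _
      exact h1.to_subtype
    exact IntermediateField.finiteDimensional_adjoin fun x _ => Algebra.IsIntegral.isIntegral x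
  have hfinQ : FiniteDimensional ℚ K₀ := Module.Finite.trans K K₀
  have hNF : NumberField K₀ := { to_charZero := inferInstance, to_finiteDimensional := hfinQ }
  have hmem : ∀ x ∈ T₁, (x : Ω) ∈ K₀ := fun x hx =>
    IntermediateField.subset_adjoin K _ ⟨x, hx, rfl⟩
  let f : K₀ˣ →* Ωˣ := Units.map (algebraMap K₀ Ω).toMonoidHom
  let lft : {y : Ωˣ // y ∈ T₁} → K₀ˣ := fun x =>
    Units.mk0 (⟨(x.1 : Ω), hmem x.1 x.2⟩ : K₀) (by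
      intro h
      exact x.1.ne_zero (congrArg (fun z : K₀ => (z : Ω)) h))
  have hlft : ∀ x, f (lft x) = x.1 := by
    intro x
    apply Units.ext
    rfl
  let T₀ : Finset K₀ˣ := T₁.attach.image lft
  let Λ₀ : Subgroup K₀ˣ := Subgroup.closure (T₀ : Set K₀ˣ)
  have hΛ₀ : Λ₀.FG := ⟨T₀, rfl⟩
  have himg : f '' (T₀ : Set K₀ˣ) = (T₁ : Set Ωˣ) := by
    ext y
    constructor
    · rintro ⟨x, hx, rfl⟩
      obtain ⟨z, -, rfl⟩ := Finset.mem_image.1 (Finset.mem_coe.1 hx)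
      rw [hlft]
      exact z.2
    · intro hy
      refine ⟨lft ⟨y, hy⟩, ?_, hlft _⟩
      exact Finset.mem_coe.2 (Finset.mem_image.2 ⟨⟨y, hy⟩, Finset.mem_attach _ _, rfl⟩)
  have hmap : Λ₀.map f = Λ := by
    rw [MonoidHom.map_closure, himg, hT₁]
  have hprime' : ∀ p ∈ insert 2 S, p.Prime := by
    intro p hp
    rcases Finset.mem_insert.1 hp with rfl | hp
    · exact Nat.prime_two
    · exact hS p hp
  obtain ⟨T, hT⟩ : ∃ T : Set Ω, T = {x : Ω | ∃ u ∈ Λ, x = ((u : Ωˣ) : Ω)} := ⟨_, rfl⟩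
  have hT' : T = {x : Ω | ∃ u ∈ Λ₀, x = algebraMap K₀ Ω ((u : K₀ˣ) : K₀)} := by
    rw [hT]
    ext x
    constructor
    · rintro ⟨u, hu, rfl⟩
      rw [← hmap] at hu
      obtain ⟨v, hv, rfl⟩ := hu
      exact ⟨v, hv, rfl⟩
    · rintro ⟨v, hv, rfl⟩
      refine ⟨f v, ?_, rfl⟩
      rw [← hmap]
      exact ⟨v, hv, rfl⟩
  obtain ⟨c, C, hc, h⟩ := lehmer_O (K := K₀) Ω Λ₀ hΛ₀ (insert 2 S) hprime'
    ⟨2, Finset.mem_insert_self 2 S⟩ T hT'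
  refine ⟨c, C, hc, fun γ hγ => ?_⟩
  have hnd : (γ : Ω) ∉ DG T := by
    rw [hT]
    rintro ⟨n, hn, u, hu, hun⟩
    apply hγ n hn
    have h1 : γ ^ n = u := by
      apply Units.ext
      rw [Units.val_pow_eq_pow_val, hun]
    rw [h1]
    exact hu
  have h1 := h (γ : Ω) γ.ne_zero hnd
  have hN : (Pool.Agent.H11.TH.N₀ K Λ S : Set Ω) ⊆
      ((IntermediateField.adjoin K₀ (SG T (insert 2 S)) : IntermediateField K₀ Ω) : Set Ω) := by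
    have h2 : Pool.Agent.H11.TH.N₀ K Λ S ≤
        (IntermediateField.adjoin K₀ (SG T (insert 2 S))).restrictScalars K := by
      unfold Pool.Agent.H11.TH.N₀ Pool.Agent.H11.TH.fld
      rw [IntermediateField.adjoin_le_iff]
      rintro y ⟨x, ⟨N, hN, hNS, t, ⟨k, hk, hkt⟩, hx⟩, rfl⟩
      refine IntermediateField.subset_adjoin K₀ _ ⟨N, hN, ?_, (t : Ω), ⟨k, hk, ?_⟩, ?_⟩
      · exact fun q hq hqN => Finset.mem_insert_of_mem (hNS q hq hqN)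
      · rw [← Units.val_pow_eq_pow_val, hkt, Units.val_one]
      · rw [hT]
        exact ⟨_, hx, by rw [Units.val_mul, Units.val_pow_eq_pow_val]⟩
    exact fun x hx => h2 hx
  have h3 : dg (IntermediateField.adjoin K₀ (SG T (insert 2 S))) (γ : Ω) ≤
      dg (Pool.Agent.H11.TH.N₀ K Λ S) (γ : Ω) := by
    refine Set.ncard_le_ncard ?_ (orb_finite _ _)
    rintro x ⟨ρ, hρ, rfl⟩
    exact ⟨ρ.restrictScalars K, fun z hz => hρ z (hN hz), rfl⟩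
  have h4 : (dg (IntermediateField.adjoin K₀ (SG T (insert 2 S))) (γ : Ω) : ℝ) ≤
      dg (Pool.Agent.H11.TH.N₀ K Λ S) (γ : Ω) := by exact_mod_cast h3
  exact h1.trans (mul_le_mul_of_nonneg_right (pow_le_pow_left₀ (Nat.cast_nonneg _) h4 _)
    (ht_nonneg _))

end Pool.Agent.H11.PF
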